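import Pool.Agent.Helper879.ECD.Labels

set_option autoImplicit false

namespace Pool.Agent.TH415.K3

open Finset Pool.Agent.Helper879.ECD

variable {V : Type} [Fintype V] [DecidableEq V]

omit [DecidableEq V] in
lemma minPer_pos (π : Equiv.Perm V) (v : V) : 0 < Function.minimalPeriod π v := by
  apply Function.minimalPeriod_pos_of_mem_periodicPts
  exact Function.Injective.mem_periodicPts π.injective v

omit [DecidableEq V] in
lemma sameCycle_iff_lt (π : Equiv.Perm V) (r v : V) :
    π.SameCycle r v ↔ ∃ i < Function.minimalPeriod π r, π^[i] r = v := by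
  constructor
  · intro h
    obtain ⟨n, hn⟩ := h.exists_nat_pow_eq
    refine ⟨n % Function.minimalPeriod π r, Nat.mod_lt _ (minPer_pos π r), ?_⟩
    rw [Function.iterate_mod_minimalPeriod_eq, ← hn, Equiv.Perm.iterate_eq_pow]
  · rintro ⟨i, _, rfl⟩
    exact ⟨i, by rw [zpow_natCast, Equiv.Perm.iterate_eq_pow]⟩

/-- Local choices around the cycles of a permutation can be glued together. -/
theorem glue {S : Type} (π : Equiv.Perm V) (R : V → S → S → Prop)
    (h : ∀ r : V, ∃ σ : ℕ → S, σ (Function.minimalPeriod π r) = σ 0 ∧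
      ∀ i < Function.minimalPeriod π r, R (π^[i + 1] r) (σ i) (σ (i + 1))) :
    ∃ st : V → S, ∀ v, R (π v) (st v) (st (π v)) := by
  classical
  choose σ hσ0 hσ using h
  let q : V → Quotient (Equiv.Perm.SameCycle.setoid π) := fun v => Quotient.mk _ v
  let rep : V → V := fun v => Quotient.out (q v)
  have hrep : ∀ v, π.SameCycle (rep v) v := fun v => Quotient.exact (Quotient.out_eq (q v))
  have hrepπ : ∀ v, rep (π v) = rep v := by
    intro v
    have : q (π v) = q v := by
      apply Quotient.sound
      show π.SameCycle (π v) v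
      rw [Equiv.Perm.sameCycle_apply_left]
    show Quotient.out (q (π v)) = Quotient.out (q v)
    rw [this]
  have hex : ∀ v, ∃ i < Function.minimalPeriod π (rep v), π^[i] (rep v) = v :=
    fun v => (sameCycle_iff_lt π (rep v) v).1 (hrep v)
  choose idx hidx hidx' using hex
  have huniq : ∀ v i, i < Function.minimalPeriod π (rep v) → π^[i] (rep v) = v → idx v = i := by
    intro v i hi hiv
    apply (Function.iterate_injOn_Iio_minimalPeriod (f := π) (x := rep v)) (hidx v) hi
    show π^[idx v] (rep v) = π^[i] (rep v)
    rw [hidx', hiv]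
  refine ⟨fun v => σ (rep v) (idx v), fun v => ?_⟩
  have h1 := hσ (rep v) (idx v) (hidx v)
  have h2 : π^[idx v + 1] (rep v) = π v := by
    rw [Function.iterate_succ_apply', hidx']
  rw [h2] at h1
  show R (π v) (σ (rep v) (idx v)) (σ (rep (π v)) (idx (π v)))
  rw [hrepπ]
  rcases Nat.lt_or_ge (idx v + 1) (Function.minimalPeriod π (rep v)) with h3 | h3
  · have h4 : idx (π v) = idx v + 1 := by
      apply huniq
      · rw [hrepπ]; exact h3
      · rw [hrepπ]; exact h2
    rw [h4]; exact h1
  · have h4 : idx v + 1 = Function.minimalPeriod π (rep v) := le_antisymm (hidx v) h3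
    have h5 : idx (π v) = 0 := by
      apply huniq
      · rw [hrepπ]; exact minPer_pos π _
      · rw [hrepπ, Function.iterate_zero_apply]
        rw [h4, Function.iterate_minimalPeriod] at h2
        exact h2
    rw [h5, ← hσ0, ← h4]; exact h1

/-- the sum along a cycle, written with iterates -/
lemma sum_iter {A : Type} [AddCommMonoid A] (π : Equiv.Perm V) (D : V → A) (r : V) :
    ∑ i ∈ range (Function.minimalPeriod π r), D (π^[i + 1] r) =
      ∑ v ∈ univ.filter (fun v => π.SameCycle r v), D v := by
  apply Finset.sum_nbij (fun i => π^[i + 1] r)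
  · intro i _
    rw [Finset.mem_filter]
    refine ⟨Finset.mem_univ _, ?_⟩
    exact ⟨(i + 1 : ℕ), by rw [zpow_natCast, Equiv.Perm.iterate_eq_pow]⟩
  · intro i hi j hj hij
    have h1 : π^[i] r = π^[j] r := by
      apply π.injective
      have := hij
      simp only [Function.iterate_succ_apply'] at this
      exact this
    exact (Function.iterate_injOn_Iio_minimalPeriod (f := π) (x := r))
      (Finset.mem_range.1 hi) (Finset.mem_range.1 hj) h1
  · intro v hv
    have hv' : π.SameCycle r v := (Finset.mem_filter.1 hv).2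
    have h1 : π.SameCycle r (π.symm v) := by
      have : π.SameCycle r (π (π.symm v)) := by rw [Equiv.apply_symm_apply]; exact hv'
      exact (Equiv.Perm.sameCycle_apply_right).1 this
    obtain ⟨i, hi, h2⟩ := (sameCycle_iff_lt π r _).1 h1
    refine ⟨i, by rw [Finset.mem_coe, Finset.mem_range]; exact hi, ?_⟩
    show π^[i + 1] r = v
    rw [Function.iterate_succ_apply', h2, Equiv.apply_symm_apply]
  · intro i _; rfl

omit [Fintype V] [DecidableEq V] in
lemma two_le_minPer (π : Equiv.Perm V) (r : V) (h0 : 0 < Function.minimalPeriod π r)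
    (h : π r ≠ r) : 2 ≤ Function.minimalPeriod π r := by
  by_contra hcon
  have h1 : Function.minimalPeriod π r = 1 := by omega
  exact h (Function.minimalPeriod_eq_one_iff_isFixedPt.1 h1)

end Pool.Agent.TH415.K3
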