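import Mathlib

set_option autoImplicit false

namespace Pool.Agent.TH415.K3

open Finset

/-- a letter or a potential: an element of the Klein four group -/
abbrev K4 := ZMod 2 × ZMod 2

/-- the colour of a nonzero letter in the third layer (the value at zero is never used) -/
def kc (x : K4) : Fin 5 :=
  if x = (1, 0) then 2 else if x = (0, 1) then 3 else if x = (1, 1) then 4 else 0

/-- a state: the colours of an edge in the three layers -/
abbrev State := Fin 3 → Fin 5

/-- colours of a matching edge in the three layers -/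
def mc (x : K4) : State := ![0, 1, kc x]

/-- the five colours around the vertex of every layer are distinct; `u j` is the colour of the
vertical edge that misses layer `j` -/
def Good (c s t u : State) : Prop :=
  ∀ i : Fin 3, c i ≠ s i ∧ c i ≠ t i ∧ c i ≠ u (i + 1) ∧ c i ≠ u (i + 2) ∧ s i ≠ t i ∧
    s i ≠ u (i + 1) ∧ s i ≠ u (i + 2) ∧ t i ≠ u (i + 1) ∧ t i ≠ u (i + 2) ∧
    u (i + 1) ≠ u (i + 2)

instance (c s t u : State) : Decidable (Good c s t u) := by unfold Good; infer_instance

/-- the colour `k` is absent from the three colours in layer `i` -/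
def fr (c s t : State) (k : Fin 5) (i : Fin 3) : Bool :=
  decide (c i ≠ k) && decide (s i ≠ k) && decide (t i ≠ k)

/-- the vertical colours -/
def vc (c s t : State) : State := fun j =>
  if fr c s t 0 (j + 1) && fr c s t 0 (j + 2) then 0
  else if fr c s t 1 (j + 1) && fr c s t 1 (j + 2) then 1
  else if fr c s t 2 (j + 1) && fr c s t 2 (j + 2) then 2
  else if fr c s t 3 (j + 1) && fr c s t 3 (j + 2) then 3
  else 4

/-- transition -/
def Tr (x : K4) (s t : State) : Prop := Good (mc x) s t (vc (mc x) s t)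

instance (x : K4) (s t : State) : Decidable (Tr x s t) := by unfold Tr; infer_instance

/-- there is a walk of length `n` reading `w` from `s` to `t` -/
def Wk (w : ℕ → K4) (n : ℕ) (s t : State) : Prop :=
  ∃ σ : ℕ → State, σ 0 = s ∧ σ n = t ∧ ∀ i < n, Tr (w i) (σ i) (σ (i + 1))

lemma wk_zero (w : ℕ → K4) (s : State) : Wk w 0 s s :=
  ⟨fun _ => s, rfl, rfl, fun i hi => absurd hi (Nat.not_lt_zero i)⟩

lemma wk_succ {w : ℕ → K4} {n : ℕ} {s t t' : State} (h : Wk w n s t) (h' : Tr (w n) t t') :
    Wk w (n + 1) s t' := by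
  obtain ⟨σ, h0, hn, hs⟩ := h
  refine ⟨fun i => if i ≤ n then σ i else t', ?_, ?_, ?_⟩
  · simp [h0]
  · simp
  · intro i hi
    rcases Nat.lt_or_ge i n with h1 | h1
    · have h2 : i ≤ n := h1.le
      have h3 : i + 1 ≤ n := h1
      simp only [h2, h3, if_true]
      exact hs i h1
    · have h2 : i = n := by omega
      subst h2
      simp only [le_refl, if_true, Nat.not_succ_le_self, if_false]
      rw [hn]; exact h'

/-- The sets of states used between the two visits of the diagonal states. -/
inductive Q : Type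
  | one (a : K4) : Q      -- the state `(a,0,0)`
  | two (a : K4) : Q      -- the state `(1,a,1)`
  | zone (a : K4) : Q     -- the states `(x,a,y)`
  | ztwo (a : K4) : Q     -- the states `(a,x,y)`

/-- potential -/
def Q.pot : Q → K4
  | .one a => a
  | .two a => a
  | .zone _ => 0
  | .ztwo _ => 0

/-- the label of the set -/
def Q.lab : Q → K4
  | .one a => a
  | .two a => a
  | .zone a => a
  | .ztwo a => a

/-- the members of the set; the second argument is a nonzero letter used as a selector -/
def Q.mem : Q → K4 → State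
  | .one a, _ => ![kc a, 0, 0]
  | .two a, _ => ![1, kc a, 1]
  | .zone a, b => ![kc b, kc a, kc (a + b)]
  | .ztwo a, b => ![kc a, kc b, kc (a + b)]

/-- next set -/
def Q.next : Q → K4 → Q
  | .one a, x => if x = a then .zone a else .two (a + x)
  | .two a, x => if x = a then .ztwo a else .one (a + x)
  | .zone a, x => if x = a then .one a else .two x
  | .ztwo a, x => if x = a then .two a else .one x

lemma next_ok (q : Q) (x : K4) (hx : x ≠ 0) (ha : q.lab ≠ 0) :
    (q.next x).lab ≠ 0 ∧ (q.next x).pot = q.pot + x := by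
  rcases q with a | a | a | a <;> simp only [Q.lab] at ha <;> revert a x <;>
    simp only [Q.next] <;> decide

/-- the one-step condition -/
def StepOk (q : Q) (x b : K4) : Prop :=
  x ≠ 0 → q.lab ≠ 0 → b ≠ 0 → b ≠ (q.next x).lab →
    ∃ b' : K4, b' ≠ 0 ∧ b' ≠ q.lab ∧ Tr x (q.mem b') ((q.next x).mem b)

instance (q : Q) (x b : K4) : Decidable (StepOk q x b) := by unfold StepOk; infer_instance

lemma step_ok (q : Q) (x b : K4) : StepOk q x b := by
  rcases q with a | a | a | a <;> revert a x b <;> decide +kernel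

/-- run of the deterministic automaton -/
def run (w : ℕ → K4) (q : Q) : ℕ → Q
  | 0 => q
  | n + 1 => (run w q n).next (w n)

lemma run_ok (w : ℕ → K4) (hw : ∀ i, w i ≠ 0) (q : Q) (hq : q.lab ≠ 0) (n : ℕ) :
    (run w q n).lab ≠ 0 ∧ (run w q n).pot = q.pot + ∑ i ∈ range n, w i := by
  induction n with
  | zero => simpa [run] using hq
  | succ n ih =>
    have h := next_ok (run w q n) (w n) (hw n) ih.1
    refine ⟨h.1, ?_⟩
    rw [Finset.sum_range_succ, ← add_assoc, ← ih.2]
    exact h.2

lemma run_wk (w : ℕ → K4) (hw : ∀ i, w i ≠ 0) (q : Q) (hq : q.lab ≠ 0) (n : ℕ) :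
    ∀ b : K4, b ≠ 0 → b ≠ (run w q n).lab →
      ∃ b' : K4, b' ≠ 0 ∧ b' ≠ q.lab ∧ Wk w n (q.mem b') ((run w q n).mem b) := by
  induction n with
  | zero => intro b hb hb'; exact ⟨b, hb, hb', wk_zero _ _⟩
  | succ n ih =>
    intro b hb hb'
    obtain ⟨b1, h1, h2, h3⟩ := step_ok (run w q n) (w n) b (hw n) (run_ok w hw q hq n).1 hb hb'
    obtain ⟨b2, h4, h5, h6⟩ := ih b1 h1 h2
    exact ⟨b2, h4, h5, wk_succ h6 h3⟩

lemma start_ok (a x : K4) (ha : a ≠ 0) (hx : x ≠ 0) (hax : a ≠ x) (b : K4) :
    Tr x ![kc a, kc a, kc a] ((Q.one (a + x)).mem b) ∧ a + x ≠ 0 := by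
  revert a x b; decide +kernel

lemma end_ok (q : Q) (a x : K4) (hq : q.lab ≠ 0) (hp : q.pot = a + x) (ha : a ≠ 0)
    (hx : x ≠ 0) (hax : a ≠ x) (b : K4) :
    Tr x (q.mem b) ![kc a, kc a, kc a] := by
  rcases q with c | c | c | c
  · simp only [Q.pot] at hp
    subst hp; revert a x b; decide +kernel
  · simp only [Q.pot] at hp
    subst hp; revert a x b; decide +kernel
  · exfalso
    simp only [Q.pot] at hp
    clear hq
    revert a x; decide
  · exfalso
    simp only [Q.pot] at hp
    clear hq
    revert a x; decide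

lemma exists_diag (x y : K4) : ∃ a : K4, a ≠ 0 ∧ a ≠ x ∧ a ≠ y := by
  revert x y; decide

lemma exists_sel (x : K4) : ∃ a : K4, a ≠ 0 ∧ a ≠ x := by
  revert x; decide

/-- Every word of nonzero letters of length at least two and sum zero has a closed walk. -/
theorem closed_walk (w : ℕ → K4) (hw : ∀ i, w i ≠ 0) (k : ℕ) (hk : 2 ≤ k)
    (hs : ∑ i ∈ range k, w i = 0) : ∃ s : State, Wk w k s s := by
  obtain ⟨n, rfl⟩ : ∃ n, k = n + 2 := ⟨k - 2, by omega⟩
  obtain ⟨a, ha, ha0, ha1⟩ := exists_diag (w 0) (w (n + 1))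
  let w' : ℕ → K4 := fun i => w (i + 1)
  have hw' : ∀ i, w' i ≠ 0 := fun i => hw _
  let q : Q := .one (a + w 0)
  have hq : q.lab ≠ 0 := (start_ok a (w 0) ha (hw 0) ha0 0).2
  obtain ⟨hr1, hr2⟩ := run_ok w' hw' q hq n
  obtain ⟨b, hb, hb'⟩ := exists_sel (run w' q n).lab
  obtain ⟨b1, h1, h2, σ, h3, h4, h5⟩ := run_wk w' hw' q hq n b hb hb'
  have hstart := (start_ok a (w 0) ha (hw 0) ha0 b1).1
  have hpot : (run w' q n).pot = a + w (n + 1) := by
    rw [hr2]
    have h6 : ∑ i ∈ range (n + 2), w i = (w 0 + ∑ i ∈ range n, w' i) + w (n + 1) := by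
      rw [Finset.sum_range_succ, Finset.sum_range_succ']
      simp only [w']
      ring
    rw [h6] at hs
    have h7 : w 0 + ∑ i ∈ range n, w' i = w (n + 1) := by
      have h8 : ∀ x y : K4, x + y = 0 → x = y := by decide
      exact h8 _ _ hs
    show a + w 0 + ∑ i ∈ range n, w' i = _
    rw [add_assoc, h7]
  have hend := end_ok (run w' q n) a (w (n + 1)) hr1 hpot ha (hw _) ha1 b
  refine ⟨![kc a, kc a, kc a], fun i => if i = 0 then ![kc a, kc a, kc a] else
    if i = n + 2 then ![kc a, kc a, kc a] else σ (i - 1), ?_, ?_, ?_⟩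
  · simp
  · simp
  · intro i hi
    rcases Nat.eq_zero_or_pos i with rfl | h0
    · simp only [if_true]
      have e1 : (0 + 1 = n + 2) = False := by simp
      simp only [e1, if_false, Nat.succ_ne_zero]
      rw [show σ (0 + 1 - 1) = σ 0 from rfl, h3]
      exact hstart
    · have h6 : i ≠ 0 := by omega
      have h7 : i ≠ n + 2 := by omega
      have h8 : i + 1 ≠ 0 := by omega
      simp only [h6, h7, h8, if_false]
      by_cases h9 : i = n + 1
      · subst h9
        simp only [if_true]
        rw [show σ (n + 1 - 1) = σ n from rfl, h4]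
        exact hend
      · have h10 : i + 1 ≠ n + 2 := by omega
        simp only [h10, if_false]
        have h11 := h5 (i - 1) (by omega)
        rw [show i + 1 - 1 = (i - 1) + 1 by omega]
        have h12 : w' (i - 1) = w i := by simp only [w']; congr 1; omega
        rw [h12] at h11
        exact h11

end Pool.Agent.TH415.K3
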