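import Pool.Agent.TH415.K3.Simple
import Pool.Agent.TH415.K3.Cycle
import Pool.Agent.TH415.K3.Local

set_option autoImplicit false

namespace Pool.Agent.TH415.K3

open Finset Pool.Agent.Helper879.ECD

variable {V : Type} [Fintype V] [DecidableEq V]

omit [DecidableEq V] in
/-- states for all edges of the 2-factor -/
lemma exists_states (π : Equiv.Perm V) (x y : V → F2) (hπ : ∀ v, π v ≠ v)
    (nz : ∀ v, x v ≠ 0 ∨ y v ≠ 0) (bx : Bal π x) (by' : Bal π y) :
    ∃ st : V → State, ∀ v, Tr (x (π v), y (π v)) (st v) (st (π v)) := by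
  classical
  apply glue π (fun v s t => Tr (x v, y v) s t)
  intro r
  have hw : ∀ i, (fun i => ((x (π^[i + 1] r), y (π^[i + 1] r)) : K4)) i ≠ 0 := by
    intro i h
    have h1 := congrArg Prod.fst h
    have h2 := congrArg Prod.snd h
    rcases nz (π^[i + 1] r) with h3 | h3
    · exact h3 h1
    · exact h3 h2
  obtain ⟨s, σ, h0, h1, h2⟩ := closed_walk _ hw (Function.minimalPeriod π r)
    (two_le_minPer π r (minPer_pos π r) (hπ r)) (by
      rw [sum_iter π (fun v => ((x v, y v) : K4)) r]
      ext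
      · rw [Prod.fst_sum]
        exact bx.sum_cycle r
      · rw [Prod.snd_sum]
        exact by'.sum_cycle r)
  exact ⟨σ, by rw [h0, h1], h2⟩

lemma fin3_third (i j : Fin 3) (h : i ≠ j) : j = i + 1 ∨ j = i + 2 := by
  revert i j; decide

lemma fin3_e1 (i : Fin 3) : -(i + (i + 1)) = i + 2 := by
  revert i; decide

lemma fin3_e2 (i : Fin 3) : -(i + (i + 2)) = i + 1 := by
  revert i; decide

lemma fin3_n1 (i : Fin 3) : i ≠ i + 1 := by
  revert i; decide

lemma fin3_n2 (i : Fin 3) : i ≠ i + 2 := by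
  revert i; decide

lemma inj5 {a b c d e : Fin 5} (h1 : a ≠ b) (h2 : a ≠ c) (h3 : a ≠ d) (h4 : a ≠ e) (h5 : b ≠ c)
    (h6 : b ≠ d) (h7 : b ≠ e) (h8 : c ≠ d) (h9 : c ≠ e) (h10 : d ≠ e) :
    Function.Injective ![a, b, c, d, e] := by
  intro k l hkl
  fin_cases k <;> fin_cases l <;> first
    | rfl
    | exact absurd hkl h1
    | exact absurd hkl h2
    | exact absurd hkl h3
    | exact absurd hkl h4
    | exact absurd hkl h5
    | exact absurd hkl h6
    | exact absurd hkl h7
    | exact absurd hkl h8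
    | exact absurd hkl h9
    | exact absurd hkl h10
    | exact absurd hkl.symm h1
    | exact absurd hkl.symm h2
    | exact absurd hkl.symm h3
    | exact absurd hkl.symm h4
    | exact absurd hkl.symm h5
    | exact absurd hkl.symm h6
    | exact absurd hkl.symm h7
    | exact absurd hkl.symm h8
    | exact absurd hkl.symm h9
    | exact absurd hkl.symm h10

/-- The Cartesian product of a bridgeless cubic graph with the triangle is 1-factorizable. -/
theorem main (G : SimpleGraph V) [DecidableRel G.Adj] (h3 : G.IsRegularOfDegree 3)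
    (hb : ∀ e ∈ G.edgeSet, ¬ G.IsBridge e) :
    ∃ M : Fin 5 → (SimpleGraph.boxProd G (⊤ : SimpleGraph (Fin 3))).Subgraph,
      (∀ i, (M i).IsPerfectMatching) ∧
      ∀ e ∈ (SimpleGraph.boxProd G (⊤ : SimpleGraph (Fin 3))).edgeSet,
        ∃! i, e ∈ (M i).edgeSet := by
  obtain ⟨m, π, x, y, D⟩ := exists_data G h3 hb
  obtain ⟨st, hst⟩ := exists_states π x y (fun v => (D.aπ v).ne') D.nz D.balx D.baly
  let z : V → K4 := fun v => (x v, y v)
  have hzm : ∀ v, z (m v) = z v := by
    intro v
    show (x (m v), y (m v)) = (x v, y v)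
    rw [D.xm, D.ym]
  have hmm := D.hm
  let u : V → State := fun v => vc (mc (z v)) (st (π.symm v)) (st v)
  have hG : ∀ v, Good (mc (z v)) (st (π.symm v)) (st v) (u v) := by
    intro v
    have h := hst (π.symm v)
    rw [Equiv.apply_symm_apply] at h
    exact h
  let cl : V → V → Fin 3 → Fin 5 := fun v w i =>
    if w = m v then mc (z v) i else if w = π v then st v i else st w i
  have cl_m : ∀ v i, cl v (m v) i = mc (z v) i := fun v i => by simp only [cl, if_true]
  have cl_π : ∀ v i, cl v (π v) i = st v i := fun v i => by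
    simp only [cl, D.mπ v, if_true, if_false]
  have cl_s : ∀ v i, cl (π v) v i = st v i := fun v i => by
    have h1 : v ≠ m (π v) := fun h => D.mπ v (by
      have := congrArg m h
      rw [hmm] at this
      exact this.symm)
    simp only [cl, h1, (D.ππ v).symm, if_false]
  have cl_symm : ∀ v w i, G.Adj v w → cl v w i = cl w v i := by
    intro v w i h
    rcases D.nb v w h with rfl | rfl | rfl
    · have h1 := cl_m (m v) i
      rw [hmm, hzm] at h1
      rw [cl_m, h1]
    · rw [cl_π, cl_s]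
    · rw [cl_π, cl_s]
  let col : V × Fin 3 → V × Fin 3 → Fin 5 := fun a b =>
    if a.1 = b.1 then u a.1 (-(a.2 + b.2)) else cl a.1 b.1 a.2
  have hadj : ∀ a b : V × Fin 3, (SimpleGraph.boxProd G (⊤ : SimpleGraph (Fin 3))).Adj a b ↔
      (G.Adj a.1 b.1 ∧ a.2 = b.2) ∨ (a.2 ≠ b.2 ∧ a.1 = b.1) := by
    intro a b
    rw [SimpleGraph.boxProd_adj, SimpleGraph.top_adj]
  have col_symm : ∀ a b, (SimpleGraph.boxProd G (⊤ : SimpleGraph (Fin 3))).Adj a b →
      col a b = col b a := by
    intro a b h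
    rcases (hadj a b).1 h with ⟨h1, h2⟩ | ⟨h1, h2⟩
    · have h4 := h1.ne
      simp only [col, h4, h4.symm, if_false]
      rw [cl_symm _ _ _ h1, h2]
    · simp only [col, h2, if_true]
      rw [add_comm]
  let M : Fin 5 → (SimpleGraph.boxProd G (⊤ : SimpleGraph (Fin 3))).Subgraph := fun c =>
    { verts := Set.univ
      Adj := fun a b => (SimpleGraph.boxProd G (⊤ : SimpleGraph (Fin 3))).Adj a b ∧ col a b = c
      adj_sub := fun h => h.1
      edge_vert := fun _ => Set.mem_univ _
      symm := ⟨fun a b h => ⟨h.1.symm, by rw [← col_symm a b h.1]; exact h.2⟩⟩ }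
  have hM : ∀ c a b, (M c).Adj a b ↔
      (SimpleGraph.boxProd G (⊤ : SimpleGraph (Fin 3))).Adj a b ∧ col a b = c := fun _ _ _ => Iff.rfl
  refine ⟨M, ?_, ?_⟩
  · intro c
    refine ⟨?_, fun a => Set.mem_univ a⟩
    rintro ⟨v, i⟩ _
    -- the five neighbours and their colours
    let nb : Fin 5 → V × Fin 3 := ![(m v, i), (π.symm v, i), (π v, i), (v, i + 1), (v, i + 2)]
    let cs : Fin 5 → Fin 5 :=
      ![mc (z v) i, st (π.symm v) i, st v i, u v (i + 2), u v (i + 1)]
    have hsv : G.Adj v (π.symm v) := by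
      have := (D.aπ (π.symm v)).symm
      rwa [Equiv.apply_symm_apply] at this
    have hnb : ∀ k, (SimpleGraph.boxProd G (⊤ : SimpleGraph (Fin 3))).Adj (v, i) (nb k) ∧
        col (v, i) (nb k) = cs k := by
      intro k
      fin_cases k
      · refine ⟨(hadj _ _).2 (Or.inl ⟨D.am v, rfl⟩), ?_⟩
        show col (v, i) (m v, i) = mc (z v) i
        simp only [col, (D.am v).ne, if_false]
        exact cl_m v i
      · refine ⟨(hadj _ _).2 (Or.inl ⟨hsv, rfl⟩), ?_⟩
        show col (v, i) (π.symm v, i) = st (π.symm v) i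
        simp only [col, hsv.ne, if_false]
        have := cl_s (π.symm v) i
        rwa [Equiv.apply_symm_apply] at this
      · refine ⟨(hadj _ _).2 (Or.inl ⟨D.aπ v, rfl⟩), ?_⟩
        show col (v, i) (π v, i) = st v i
        simp only [col, (D.aπ v).ne, if_false]
        exact cl_π v i
      · refine ⟨(hadj _ _).2 (Or.inr ⟨fin3_n1 i, rfl⟩), ?_⟩
        show col (v, i) (v, i + 1) = u v (i + 2)
        simp only [col, if_true]
        rw [fin3_e1]
      · refine ⟨(hadj _ _).2 (Or.inr ⟨fin3_n2 i, rfl⟩), ?_⟩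
        show col (v, i) (v, i + 2) = u v (i + 1)
        simp only [col, if_true]
        rw [fin3_e2]
    have hcs : Function.Injective cs := by
      obtain ⟨g1, g2, g3, g4, g5, g6, g7, g8, g9, g10⟩ := hG v i
      exact inj5 g1 g2 g4 g3 g5 g7 g6 g9 g8 g10.symm
    have hall : ∀ b, (SimpleGraph.boxProd G (⊤ : SimpleGraph (Fin 3))).Adj (v, i) b →
        ∃ k, b = nb k := by
      rintro ⟨w, j⟩ h
      rcases (hadj _ _).1 h with ⟨h1, h2⟩ | ⟨h1, h2⟩
      · have h2' : i = j := h2
        subst h2'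
        rcases D.nb v w h1 with h4 | h4 | h4
        · exact ⟨0, by rw [h4]; rfl⟩
        · exact ⟨2, by rw [h4]; rfl⟩
        · refine ⟨1, ?_⟩
          have h5 : w = π.symm v := by rw [h4, Equiv.symm_apply_apply]
          rw [h5]; rfl
      · have h2' : v = w := h2
        subst h2'
        rcases fin3_third i j h1 with h4 | h4
        · exact ⟨3, by rw [h4]; rfl⟩
        · exact ⟨4, by rw [h4]; rfl⟩
    obtain ⟨k, hk⟩ := (Finite.injective_iff_surjective.1 hcs) c
    refine ⟨nb k, ⟨(hnb k).1, by rw [(hnb k).2, hk]⟩, ?_⟩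
    rintro b ⟨hb1, hb2⟩
    obtain ⟨l, rfl⟩ := hall b hb1
    rw [(hnb l).2, ← hk] at hb2
    rw [hcs hb2]
  · intro e he
    induction e with
    | _ a b =>
      refine ⟨col a b, ?_, ?_⟩
      · show s(a, b) ∈ (M (col a b)).edgeSet
        rw [SimpleGraph.Subgraph.mem_edgeSet, hM]
        exact ⟨he, rfl⟩
      · intro c hc
        have hc' : s(a, b) ∈ (M c).edgeSet := hc
        rw [SimpleGraph.Subgraph.mem_edgeSet, hM] at hc'
        exact hc'.2.symm

end Pool.Agent.TH415.K3
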