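import Pool.Agent.TH415.K3.Setup

set_option autoImplicit false

namespace Pool.Agent.TH415.K3

open Finset Pool.Agent.Helper879.ECD

section

variable {V : Type} [Fintype V] [DecidableEq V]

/-- A perfect matching with mate map `m` of a cubic simple graph, its complementary 2-factor
oriented as a permutation `π`, and a nowhere-zero flow `x` (indexed by the vertices) over the
Klein four group on the graph obtained by contracting the 2-factor. -/
structure IsData (G : SimpleGraph V) (m : V → V) (π : Equiv.Perm V) (x y : V → F2) : Prop where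
  hm : ∀ v, m (m v) = v
  am : ∀ v, G.Adj v (m v)
  aπ : ∀ v, G.Adj v (π v)
  mπ : ∀ v, π v ≠ m v
  ππ : ∀ v, π (π v) ≠ v
  nb : ∀ v w, G.Adj v w → w = m v ∨ w = π v ∨ v = π w
  nz : ∀ v, x v ≠ 0 ∨ y v ≠ 0
  xm : ∀ v, x (m v) = x v
  ym : ∀ v, y (m v) = y v
  balx : Bal π x
  baly : Bal π y

/-- the multigraph of a simple graph -/
def mg (G : SimpleGraph V) : MGraph V G.edgeSet where
  ends e := e.1
  loopless e := G.not_isDiag_of_mem_edgeSet e.2

theorem exists_data (G : SimpleGraph V) [DecidableRel G.Adj] (h3 : G.IsRegularOfDegree 3)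
    (hb : ∀ e ∈ G.edgeSet, ¬ G.IsBridge e) :
    ∃ (m : V → V) (π : Equiv.Perm V) (x y : V → F2), IsData G m π x y := by
  classical
  have hab : ∀ e : G.edgeSet, ∃ p : V × V, (e : Sym2 V) = s(p.1, p.2) := by
    rintro ⟨e, he⟩
    induction e with
    | _ x y => exact ⟨(x, y), rfl⟩
  choose p hp using hab
  have hadj : ∀ e : G.edgeSet, G.Adj (p e).1 (p e).2 := by
    intro e
    have := e.2
    rw [hp e] at this
    exact this
  have hne : ∀ e, (p e).1 ≠ (p e).2 := fun e => (hadj e).ne
  have hmem : ∀ (e : G.edgeSet) v, v ∈ (e : Sym2 V) ↔ v = (p e).1 ∨ v = (p e).2 := by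
    intro e v; rw [hp, Sym2.mem_iff]
  obtain ⟨m, π, f, g, ψ₁, ψ₂, hS⟩ := exists_setup (mg G) (fun e => (p e).1) (fun e => (p e).2) hp
    (by
      intro w
      have h4 := G.card_incidenceFinset_eq_degree w
      rw [h3 w] at h4
      rw [← h4]
      unfold cn
      refine Finset.card_bij (fun e _ => (e : Sym2 V)) ?_ ?_ ?_
      · intro e he
        rw [Finset.mem_filter] at he
        rw [SimpleGraph.mem_incidenceFinset]
        refine ⟨e.2, ?_⟩
        rw [hmem]
        by_contra hcon
        push Not at hcon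
        apply he.2
        simp only [Finset.mem_singleton]
        exact ⟨fun h => absurd h.symm hcon.1, fun h => absurd h.symm hcon.2⟩
      · intro e _ e' _ h
        exact Subtype.ext h
      · intro e he
        rw [SimpleGraph.mem_incidenceFinset] at he
        refine ⟨⟨e, he.1⟩, ?_, rfl⟩
        rw [Finset.mem_filter]
        refine ⟨Finset.mem_univ _, ?_⟩
        have h5 := (hmem ⟨e, he.1⟩ w).1 he.2
        simp only [Finset.mem_singleton]
        have h6 := hne ⟨e, he.1⟩
        intro h7
        rcases h5 with h5 | h5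
        · exact h6 (h5.symm.trans (h7.1 h5.symm).symm)
        · exact h6 ((h7.2 h5.symm).trans h5))
    (by
      intro X hX
      unfold cn at hX
      obtain ⟨e0, he0⟩ := Finset.card_eq_one.1 hX
      have hcut : ∀ e, ¬ ((p e).1 ∈ X ↔ (p e).2 ∈ X) → e = e0 := by
        intro e he
        have : e ∈ univ.filter (fun e => ¬ ((p e).1 ∈ X ↔ (p e).2 ∈ X)) :=
          Finset.mem_filter.2 ⟨Finset.mem_univ _, he⟩
        rw [he0, Finset.mem_singleton] at this; exact this
      have he0' : ¬ ((p e0).1 ∈ X ↔ (p e0).2 ∈ X) := by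
        have : e0 ∈ univ.filter (fun e => ¬ ((p e).1 ∈ X ↔ (p e).2 ∈ X)) := by
          rw [he0]; exact Finset.mem_singleton_self _
        exact (Finset.mem_filter.1 this).2
      obtain ⟨u, v, huv, hu, hv⟩ : ∃ u v, (e0 : Sym2 V) = s(u, v) ∧ u ∈ X ∧ v ∉ X := by
        by_cases h : (p e0).1 ∈ X
        · refine ⟨_, _, hp e0, h, fun h' => he0' ⟨fun _ => h', fun _ => h⟩⟩
        · refine ⟨(p e0).2, (p e0).1, by rw [hp e0, Sym2.eq_swap], ?_, h⟩
          by_contra h'
          exact he0' ⟨fun h'' => absurd h'' h, fun h'' => absurd h'' h'⟩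
      have hcross : ∀ c d, c ∈ X → d ∉ X → G.Adj c d → s(c, d) = s(u, v) := by
        intro c d hcX hdX hcd
        have h1 : (⟨s(c, d), hcd⟩ : G.edgeSet) = e0 := by
          apply hcut
          intro h3
          have h4 := hp ⟨s(c, d), hcd⟩
          rcases Sym2.eq_iff.1 h4 with ⟨h5, h6⟩ | ⟨h5, h6⟩
          · rw [← h5, ← h6] at h3; exact hdX (h3.1 hcX)
          · rw [← h5, ← h6] at h3; exact hdX (h3.2 hcX)
        rw [← huv, ← h1]
      apply hb e0 e0.2
      rw [huv, SimpleGraph.isBridge_iff]
      intro hr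
      apply hv
      rw [SimpleGraph.reachable_iff_reflTransGen] at hr
      clear hv huv
      have key : ∀ t, Relation.ReflTransGen (G.deleteEdges {s(u, v)}).Adj u t → t ∈ X := by
        intro t ht
        induction ht with
        | refl => exact hu
        | @tail c d _ hcd ih =>
          by_contra hd
          rw [SimpleGraph.deleteEdges_adj] at hcd
          exact hcd.2 (hcross c d ih hd hcd.1)
      exact key v hr)
  have hinj : ∀ e e' : G.edgeSet, (mg G).ends e = (mg G).ends e' → e = e' :=
    fun e e' h => Subtype.ext h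
  have hadj' : ∀ (e : G.edgeSet) u v, (mg G).ends e = s(u, v) → G.Adj u v := by
    intro e u v h
    have h1 := e.2
    rw [show (e : Sym2 V) = s(u, v) from h] at h1
    exact h1
  have hgm : ∀ v, g (m v) = g v := fun v => (hS.geq _ _).2 (Or.inr rfl)
  refine ⟨m, π, fun v => ψ₁ (g v), fun v => ψ₂ (g v),
    { hm := hS.hm
      am := fun v => hadj' _ _ _ (hS.eg v)
      aπ := fun v => hadj' _ _ _ (hS.ef v)
      mπ := ?_
      ππ := ?_
      nb := ?_
      nz := hS.nz
      xm := fun v => by beta_reduce; rw [hgm]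
      ym := fun v => by beta_reduce; rw [hgm]
      balx := hS.bal₁
      baly := hS.bal₂ }⟩
  · intro v h
    apply hS.fg v v
    apply hinj
    rw [hS.ef, hS.eg, h]
  · intro v h
    have h1 : f (π v) = f v := by
      apply hinj
      rw [hS.ef, hS.ef, h, Sym2.eq_swap]
    exact hS.hπ v (hS.finj h1)
  · intro v w hvw
    rcases hS.cover ⟨s(v, w), hvw⟩ with ⟨u, hu⟩ | ⟨u, hu⟩
    · have h1 : s(v, w) = s(u, π u) := by
        have := congrArg Subtype.val hu
        rw [← hS.ef]; exact this
      rcases Sym2.eq_iff.1 h1 with ⟨rfl, h2⟩ | ⟨h2, rfl⟩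
      · exact Or.inr (Or.inl h2)
      · exact Or.inr (Or.inr h2)
    · have h1 : s(v, w) = s(u, m u) := by
        have := congrArg Subtype.val hu
        rw [← hS.eg]; exact this
      rcases Sym2.eq_iff.1 h1 with ⟨rfl, h2⟩ | ⟨h2, rfl⟩
      · exact Or.inl h2
      · left; rw [h2, hS.hm]

end

end Pool.Agent.TH415.K3
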